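import Mathlib

/-! Project MM (helper74): Gaussian Poincare inequality (rotation trick), bounded perturbations,
Gaussian density, integration by parts.  Coordinate free. -/

set_option autoImplicit false
set_option linter.unusedSectionVars false

namespace Pool.Agent.Helper74.MM

open MeasureTheory ProbabilityTheory Real
open scoped ENNReal RealInnerProductSpace

variable {E : Type*} [NormedAddCommGroup E] [InnerProductSpace ℝ E] [FiniteDimensional ℝ E]
  [MeasurableSpace E] [BorelSpace E]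

/-! ### P1: Gaussian Poincare -/

/-- second moment of a linear functional under the standard Gaussian -/
theorem poi_dual_sq (L : E →L[ℝ] ℝ) :
    ∫⁻ y, ENNReal.ofReal ((L y) ^ 2) ∂(stdGaussian E) = ENNReal.ofReal (‖L‖ ^ 2) := by
  have h1 : Var[L; stdGaussian E] = ‖L‖ ^ 2 := variance_dual_stdGaussian L
  have h2 : ∫ y, L y ∂(stdGaussian E) = 0 := integral_strongDual_stdGaussian L
  have hm : MemLp L 2 (stdGaussian E) := IsGaussian.memLp_dual _ L 2 (by simp)
  rw [variance_eq_integral (by fun_prop), h2] at h1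
  simp only [sub_zero] at h1
  rw [← h1, ofReal_integral_eq_lintegral_ofReal]
  · exact hm.integrable_sq
  · exact Filter.Eventually.of_forall fun x => sq_nonneg _

/-- squared increments along the quarter circle -/
theorem poi_inc (f : E → ℝ) (hf : ContDiff ℝ 1 f) (x y : E) :
    ENNReal.ofReal ((f x - f y) ^ 2) ≤ ENNReal.ofReal (π / 2) *
      ∫⁻ θ in Set.Ioc (0 : ℝ) (π / 2), ENNReal.ofReal
        ((fderiv ℝ f (Real.cos θ • y + Real.sin θ • x) (- Real.sin θ • y + Real.cos θ • x)) ^ 2) := by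
  set g : ℝ → ℝ := fun θ => f (Real.cos θ • y + Real.sin θ • x) with hg
  set g' : ℝ → ℝ := fun θ => fderiv ℝ f (Real.cos θ • y + Real.sin θ • x)
    (- Real.sin θ • y + Real.cos θ • x) with hg'
  have hd : ∀ θ, HasDerivAt g (g' θ) θ := by
    intro θ
    have h1 : HasDerivAt (fun θ : ℝ => Real.cos θ • y + Real.sin θ • x)
        (- Real.sin θ • y + Real.cos θ • x) θ :=
      ((Real.hasDerivAt_cos θ).smul_const y).add ((Real.hasDerivAt_sin θ).smul_const x)
    have h2 : HasFDerivAt f (fderiv ℝ f (Real.cos θ • y + Real.sin θ • x))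
        (Real.cos θ • y + Real.sin θ • x) :=
      ((hf.differentiable (by norm_num)) _).hasFDerivAt
    exact h2.comp_hasDerivAt θ h1
  have hcd : Continuous (fderiv ℝ f) := hf.continuous_fderiv (by norm_num)
  have hc : Continuous g' := by
    have : Continuous fun θ : ℝ => Real.cos θ • y + Real.sin θ • x := by fun_prop
    exact (hcd.comp this).clm_apply (by fun_prop)
  have hftc : ∫ θ in (0 : ℝ)..(π / 2), g' θ = f x - f y := by
    rw [intervalIntegral.integral_eq_sub_of_hasDerivAt (fun θ _ => hd θ)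
      (hc.intervalIntegrable _ _)]
    simp [hg]
  have hpi : (0 : ℝ) ≤ π / 2 := by positivity
  have hcs : (∫ θ in (0 : ℝ)..(π / 2), g' θ) ^ 2 ≤ (π / 2) * ∫ θ in (0 : ℝ)..(π / 2), (g' θ) ^ 2 := by
    -- Cauchy-Schwarz by expanding a square
    set m := (∫ θ in (0 : ℝ)..(π / 2), g' θ) / (π / 2) with hm
    have hi1 : IntervalIntegrable g' volume 0 (π / 2) := hc.intervalIntegrable _ _
    have hi2 : IntervalIntegrable (fun θ => (g' θ) ^ 2) volume 0 (π / 2) :=
      (hc.pow 2).intervalIntegrable _ _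
    have h0 : 0 ≤ ∫ θ in (0 : ℝ)..(π / 2), (g' θ - m) ^ 2 :=
      intervalIntegral.integral_nonneg hpi fun θ _ => sq_nonneg _
    have h3 : ∫ θ in (0 : ℝ)..(π / 2), (g' θ - m) ^ 2 =
        (∫ θ in (0 : ℝ)..(π / 2), (g' θ) ^ 2) - 2 * m * (∫ θ in (0 : ℝ)..(π / 2), g' θ)
          + (π / 2) * m ^ 2 := by
      have : (fun θ => (g' θ - m) ^ 2) = fun θ => ((g' θ) ^ 2 - 2 * m * g' θ) + m ^ 2 := by
        ext θ; ring
      rw [this, intervalIntegral.integral_add (hi2.sub (hi1.const_mul _)) (by simp),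
        intervalIntegral.integral_sub hi2 (hi1.const_mul _), intervalIntegral.integral_const_mul,
        intervalIntegral.integral_const]
      simp
    rw [h3] at h0
    have hp : (0 : ℝ) < π / 2 := by positivity
    have hm' : (∫ θ in (0 : ℝ)..(π / 2), g' θ) = m * (π / 2) := by
      rw [hm]; field_simp
    rw [hm'] at h0 ⊢
    nlinarith [mul_nonneg hp.le h0]
  rw [← hftc]
  refine (ENNReal.ofReal_le_ofReal hcs).trans ?_
  rw [ENNReal.ofReal_mul hpi]
  gcongr
  rw [intervalIntegral.integral_of_le hpi, ofReal_integral_eq_lintegral_ofReal]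
  · exact ((hc.pow 2).intervalIntegrable 0 (π / 2)).1
  · exact Filter.Eventually.of_forall fun x => sq_nonneg _

theorem poi_dbl (f : E → ℝ) (hf : ContDiff ℝ 1 f) :
    ∫⁻ p : E × E, ENNReal.ofReal ((f p.2 - f p.1) ^ 2) ∂((stdGaussian E).prod (stdGaussian E)) ≤
      ENNReal.ofReal (π / 2) * ENNReal.ofReal (π / 2) *
        ∫⁻ x, ENNReal.ofReal (‖fderiv ℝ f x‖ ^ 2) ∂(stdGaussian E) := by
  set γ := stdGaussian E with hγ
  have hcd : Continuous (fderiv ℝ f) := hf.continuous_fderiv (by norm_num)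
  set G : E × E → ℝ≥0∞ := fun p => ENNReal.ofReal ((fderiv ℝ f p.1 p.2) ^ 2) with hG
  have hGc : Continuous G := by
    refine ENNReal.continuous_ofReal.comp (Continuous.pow ?_ 2)
    exact (hcd.comp continuous_fst).clm_apply continuous_snd
  have hrot : ∀ θ : ℝ, ∫⁻ p : E × E, G (Real.cos θ • p.1 + Real.sin θ • p.2,
      - Real.sin θ • p.1 + Real.cos θ • p.2) ∂(γ.prod γ) = ∫⁻ p, G p ∂(γ.prod γ) := by
    intro θ
    have h1 : (γ.prod γ).map (ContinuousLinearMap.rotation θ) = γ.prod γ :=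
      IsGaussian.map_rotation_eq_self (by simpa using integral_id_stdGaussian) θ
    conv_rhs => rw [← h1]
    rw [lintegral_map hGc.measurable (ContinuousLinearMap.rotation θ).continuous.measurable]
    rfl
  have hJ : Measurable (fun q : (E × E) × ℝ => G (Real.cos q.2 • q.1.1 + Real.sin q.2 • q.1.2,
      - Real.sin q.2 • q.1.1 + Real.cos q.2 • q.1.2)) := by
    refine (hGc.comp ?_).measurable
    fun_prop
  calc ∫⁻ p : E × E, ENNReal.ofReal ((f p.2 - f p.1) ^ 2) ∂(γ.prod γ)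
      ≤ ∫⁻ p : E × E, (ENNReal.ofReal (π / 2) * ∫⁻ θ in Set.Ioc (0 : ℝ) (π / 2),
          G (Real.cos θ • p.1 + Real.sin θ • p.2, - Real.sin θ • p.1 + Real.cos θ • p.2))
          ∂(γ.prod γ) := lintegral_mono fun p => poi_inc f hf p.2 p.1
    _ = ENNReal.ofReal (π / 2) * ∫⁻ p : E × E, (∫⁻ θ in Set.Ioc (0 : ℝ) (π / 2),
          G (Real.cos θ • p.1 + Real.sin θ • p.2, - Real.sin θ • p.1 + Real.cos θ • p.2))
          ∂(γ.prod γ) := by
        rw [lintegral_const_mul' _ _ ENNReal.ofReal_ne_top]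
    _ = ENNReal.ofReal (π / 2) * ∫⁻ θ in Set.Ioc (0 : ℝ) (π / 2), (∫⁻ p : E × E,
          G (Real.cos θ • p.1 + Real.sin θ • p.2, - Real.sin θ • p.1 + Real.cos θ • p.2)
          ∂(γ.prod γ)) := by
        rw [lintegral_lintegral_swap]
        exact hJ.aemeasurable
    _ = ENNReal.ofReal (π / 2) * (ENNReal.ofReal (π / 2) * ∫⁻ p, G p ∂(γ.prod γ)) := by
        congr 1
        simp only [hrot]
        rw [lintegral_const, Measure.restrict_apply MeasurableSet.univ, Set.univ_inter,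
          Real.volume_Ioc, sub_zero, mul_comm]
    _ = _ := by
        rw [mul_assoc]
        congr 2
        rw [lintegral_prod _ hGc.measurable.aemeasurable]
        refine lintegral_congr fun x => ?_
        exact poi_dual_sq (fderiv ℝ f x)

/-- Gaussian Poincare inequality with constant `π² / 8` -/
theorem poi_gauss (f : E → ℝ) (hf : ContDiff ℝ 1 f)
    (h2 : Integrable (fun x => (f x) ^ 2) (stdGaussian E))
    (hD : Integrable (fun x => ‖fderiv ℝ f x‖ ^ 2) (stdGaussian E)) :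
    ∫ x, (f x - ∫ y, f y ∂(stdGaussian E)) ^ 2 ∂(stdGaussian E) ≤
      (π ^ 2 / 8) * ∫ x, ‖fderiv ℝ f x‖ ^ 2 ∂(stdGaussian E) := by
  set γ := stdGaussian E with hγ
  have hfm : AEStronglyMeasurable f γ := hf.continuous.aestronglyMeasurable
  have hL2 : MemLp f 2 γ := (memLp_two_iff_integrable_sq hfm).2 h2
  have hf1 : Integrable f γ := hL2.integrable (by norm_num)
  have hkey := poi_dbl f hf
  have hpi : (0 : ℝ) ≤ π / 2 := by positivity
  -- right side as an ofReal
  rw [← ofReal_integral_eq_lintegral_ofReal hD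
    (Filter.Eventually.of_forall fun x => sq_nonneg _), ← ENNReal.ofReal_mul hpi,
    ← ENNReal.ofReal_mul (by positivity)] at hkey
  have hint : Integrable (fun p : E × E => (f p.2 - f p.1) ^ 2) (γ.prod γ) := by
    have e1 : Integrable (fun p : E × E => (f p.1) ^ 2) (γ.prod γ) := h2.comp_fst γ
    have e2 : Integrable (fun p : E × E => (f p.2) ^ 2) (γ.prod γ) := h2.comp_snd γ
    have e3 : Integrable (fun p : E × E => f p.1 * f p.2) (γ.prod γ) := hf1.mul_prod hf1
    have : (fun p : E × E => (f p.2 - f p.1) ^ 2) =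
        fun p => (f p.1) ^ 2 + (f p.2) ^ 2 - 2 * (f p.1 * f p.2) := by
      ext p; ring
    rw [this]
    exact (e1.add e2).sub (e3.const_mul 2)
  rw [← ofReal_integral_eq_lintegral_ofReal hint
    (Filter.Eventually.of_forall fun x => sq_nonneg _)] at hkey
  have hkey2 : ∫ p : E × E, (f p.2 - f p.1) ^ 2 ∂(γ.prod γ) ≤
      π / 2 * (π / 2) * ∫ x, ‖fderiv ℝ f x‖ ^ 2 ∂γ := by
    have hnn : 0 ≤ π / 2 * (π / 2) * ∫ x, ‖fderiv ℝ f x‖ ^ 2 ∂γ :=
      mul_nonneg (by positivity) (integral_nonneg fun x => sq_nonneg _)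
    exact (ENNReal.ofReal_le_ofReal_iff hnn).1 hkey
  have hdbl : ∫ p : E × E, (f p.2 - f p.1) ^ 2 ∂(γ.prod γ) =
      2 * ∫ x, (f x - ∫ y, f y ∂γ) ^ 2 ∂γ := by
    have e1 : Integrable (fun p : E × E => (f p.1) ^ 2) (γ.prod γ) := h2.comp_fst γ
    have e2 : Integrable (fun p : E × E => (f p.2) ^ 2) (γ.prod γ) := h2.comp_snd γ
    have e3 : Integrable (fun p : E × E => f p.1 * f p.2) (γ.prod γ) := hf1.mul_prod hf1
    have h0 : (fun p : E × E => (f p.2 - f p.1) ^ 2) =
        fun p => (f p.1) ^ 2 + (f p.2) ^ 2 - 2 * (f p.1 * f p.2) := by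
      ext p; ring
    have e4 : ∫ p : E × E, ((f p.1) ^ 2 + (f p.2) ^ 2 - 2 * (f p.1 * f p.2)) ∂(γ.prod γ) =
        (∫ p : E × E, (f p.1) ^ 2 ∂(γ.prod γ)) + (∫ p : E × E, (f p.2) ^ 2 ∂(γ.prod γ)) -
          2 * ((∫ x, f x ∂γ) * ∫ x, f x ∂γ) := by
      have := integral_sub (e1.add e2) (e3.const_mul 2)
      rw [integral_const_mul, integral_prod_mul] at this
      refine (Eq.trans ?_ this).trans ?_
      · rfl
      · congr 1
        exact integral_add e1 e2
    rw [h0, e4]
    have i1 : ∫ p : E × E, (f p.1) ^ 2 ∂(γ.prod γ) = ∫ x, (f x) ^ 2 ∂γ := by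
      have := integral_prod_mul (μ := γ) (ν := γ) (fun x => (f x) ^ 2) (fun _ => (1 : ℝ))
      simpa using this
    have i2 : ∫ p : E × E, (f p.2) ^ 2 ∂(γ.prod γ) = ∫ x, (f x) ^ 2 ∂γ := by
      have := integral_prod_mul (μ := γ) (ν := γ) (fun _ => (1 : ℝ)) (fun x => (f x) ^ 2)
      simpa using this
    rw [i1, i2]
    set m := ∫ y, f y ∂γ
    have h3 : (fun x => (f x - m) ^ 2) = fun x => (f x) ^ 2 - 2 * m * f x + m ^ 2 := by
      ext x; ring
    have hA : Integrable (fun x => (f x) ^ 2 - 2 * m * f x) γ := h2.sub (hf1.const_mul _)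
    rw [h3, integral_add hA (integrable_const _), integral_sub h2 (hf1.const_mul _),
      integral_const_mul, integral_const]
    simp
    ring
  rw [hdbl] at hkey2
  nlinarith [hkey2]

/-! ### P3: density of the standard Gaussian and polynomial growth -/

/-- normalising constant -/
noncomputable def gZ (E : Type*) [NormedAddCommGroup E] [InnerProductSpace ℝ E] : ℝ :=
  (2 * π) ^ (Module.finrank ℝ E / 2 : ℝ)

theorem gZ_pos : 0 < gZ E := by
  unfold gZ
  positivity

theorem integrable_exp_sq {c : ℝ} (hc : 0 < c) :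
    Integrable (fun x : E => Real.exp (-(c * ‖x‖ ^ 2))) := by
  have h := GaussianFourier.integrable_cexp_neg_mul_sq_norm_add (V := E) (b := (c : ℂ))
    (by simpa using hc) 0 0
  have h2 := h.norm
  refine h2.congr (Filter.Eventually.of_forall fun x => ?_)
  simp only [Complex.norm_exp]
  congr 1
  simp [← Complex.ofReal_pow, ← Complex.ofReal_mul]

/-- polynomials are dominated by Gaussians -/
theorem pow_le_exp_sq (k : ℕ) {c : ℝ} (hc : 0 < c) :
    ∃ K : ℝ, 0 < K ∧ ∀ r : ℝ, 0 ≤ r → (1 + r) ^ k ≤ K * Real.exp (c * r ^ 2) := by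
  refine ⟨(k.factorial : ℝ) * Real.exp (1 + 1 / (4 * c)), by positivity, fun r hr => ?_⟩
  have h1 : (1 + r) ^ k ≤ (k.factorial : ℝ) * Real.exp (1 + r) := by
    have := Real.pow_div_factorial_le_exp (1 + r) (by linarith) k
    rwa [div_le_iff₀ (by positivity), mul_comm] at this
  refine h1.trans ?_
  rw [mul_assoc, ← Real.exp_add]
  have h2 : 1 + r ≤ 1 + 1 / (4 * c) + c * r ^ 2 := by
    have h3 : 0 ≤ (2 * c * r - 1) ^ 2 / (4 * c) := by positivity
    have h4 : (2 * c * r - 1) ^ 2 / (4 * c) = c * r ^ 2 - r + 1 / (4 * c) := by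
      field_simp
      ring
    linarith
  gcongr

theorem integrable_pow_exp_sq (k : ℕ) {c : ℝ} (hc : 0 < c) :
    Integrable (fun x : E => (1 + ‖x‖) ^ k * Real.exp (-(c * ‖x‖ ^ 2))) := by
  obtain ⟨K, hK, h⟩ := pow_le_exp_sq k (half_pos hc)
  refine ((integrable_exp_sq (E := E) (half_pos hc)).const_mul K).mono' ?_ ?_
  · exact (by fun_prop : Continuous fun x : E => (1 + ‖x‖) ^ k *
      Real.exp (-(c * ‖x‖ ^ 2))).aestronglyMeasurable
  · refine Filter.Eventually.of_forall fun x => ?_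
    rw [Real.norm_eq_abs, abs_of_nonneg (by positivity)]
    calc (1 + ‖x‖) ^ k * Real.exp (-(c * ‖x‖ ^ 2))
        ≤ (K * Real.exp (c / 2 * ‖x‖ ^ 2)) * Real.exp (-(c * ‖x‖ ^ 2)) := by
          gcongr
          exact h ‖x‖ (norm_nonneg x)
      _ = K * Real.exp (-(c / 2 * ‖x‖ ^ 2)) := by
          rw [mul_assoc, ← Real.exp_add]
          congr 2
          ring

/-- polynomial growth -/
def PolyG {F : Type*} [NormedAddCommGroup F] (f : E → F) : Prop :=
  ∃ (C : ℝ) (k : ℕ), ∀ x, ‖f x‖ ≤ C * (1 + ‖x‖) ^ k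

/-- integrability against `exp (-W)` -/
theorem integrable_polyG {F : Type*} [NormedAddCommGroup F] [NormedSpace ℝ F] {f : E → F}
    (hf : Continuous f) (hg : PolyG f) {W : E → ℝ}
    (hW : Continuous W) {c b : ℝ} (hc : 0 < c) (hlow : ∀ x, c * ‖x‖ ^ 2 - b ≤ W x) :
    Integrable (fun x => Real.exp (-(W x)) • f x) := by
  obtain ⟨C, k, h⟩ := hg
  refine (((integrable_pow_exp_sq (E := E) k hc).const_mul (C * Real.exp b))).mono' ?_ ?_
  · exact ((Real.continuous_exp.comp hW.neg).smul hf).aestronglyMeasurable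
  · refine Filter.Eventually.of_forall fun x => ?_
    rw [norm_smul, Real.norm_eq_abs, abs_of_pos (Real.exp_pos _)]
    have h1 : Real.exp (-(W x)) ≤ Real.exp b * Real.exp (-(c * ‖x‖ ^ 2)) := by
      rw [← Real.exp_add]
      exact Real.exp_le_exp.2 (by linarith [hlow x])
    calc Real.exp (-(W x)) * ‖f x‖ ≤
        (Real.exp b * Real.exp (-(c * ‖x‖ ^ 2))) * (C * (1 + ‖x‖) ^ k) := by
          gcongr
          exact h x
      _ = _ := by ring

/-- the standard Gaussian in terms of Lebesgue measure -/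
theorem stdGaussian_eq : stdGaussian E =
    (volume : Measure E).withDensity
      (fun x => ENNReal.ofReal ((gZ E)⁻¹ * Real.exp (-(‖x‖ ^ 2 / 2)))) := by
  have hZ : 0 < gZ E := gZ_pos
  have hint : Integrable (fun x : E => (gZ E)⁻¹ * Real.exp (-(‖x‖ ^ 2 / 2))) := by
    have := (integrable_exp_sq (E := E) (c := 1 / 2) (by norm_num)).const_mul (gZ E)⁻¹
    refine this.congr (Filter.Eventually.of_forall fun x => ?_)
    simp only
    congr 3
    ring
  have hmeas : Measurable fun x : E => ENNReal.ofReal ((gZ E)⁻¹ * Real.exp (-(‖x‖ ^ 2 / 2))) := by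
    fun_prop
  have hfin : IsFiniteMeasure ((volume : Measure E).withDensity
      (fun x => ENNReal.ofReal ((gZ E)⁻¹ * Real.exp (-(‖x‖ ^ 2 / 2))))) := by
    refine isFiniteMeasure_withDensity ?_
    rw [← ofReal_integral_eq_lintegral_ofReal hint
      (Filter.Eventually.of_forall fun x => by positivity)]
    exact ENNReal.ofReal_ne_top
  apply Measure.ext_of_charFun
  ext t
  rw [charFun_stdGaussian, charFun_apply, integral_withDensity_eq_integral_toReal_smul hmeas
    (Filter.Eventually.of_forall fun x => ENNReal.ofReal_lt_top)]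
  have h := GaussianFourier.integral_cexp_neg_mul_sq_norm_add (V := E) (b := (1 / 2 : ℂ))
    (by norm_num) Complex.I t
  have e1 : ∀ v : E, (ENNReal.ofReal ((gZ E)⁻¹ * Real.exp (-(‖v‖ ^ 2 / 2)))).toReal •
      Complex.exp (((⟪v, t⟫ : ℝ) : ℂ) * Complex.I) =
      ((gZ E)⁻¹ : ℂ) * Complex.exp (-(1 / 2 : ℂ) * (‖v‖ : ℂ) ^ 2 + Complex.I * ((⟪t, v⟫ : ℝ) : ℂ)) := by
    intro v
    rw [ENNReal.toReal_ofReal (by positivity), Complex.real_smul, Complex.exp_add,
      real_inner_comm t v]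
    push_cast
    have e2 : (-((‖v‖ : ℂ) ^ 2 / 2)) = -(1 / 2 : ℂ) * (‖v‖ : ℂ) ^ 2 := by ring
    rw [e2, mul_comm ((⟪t, v⟫ : ℝ) : ℂ) Complex.I]
    ring
  simp only [e1]
  rw [integral_const_mul, h]
  have e3 : ((π : ℂ) / (1 / 2 : ℂ)) ^ (Module.finrank ℝ E / 2 : ℂ) = ((gZ E : ℝ) : ℂ) := by
    unfold gZ
    rw [Complex.ofReal_cpow (by positivity)]
    push_cast
    congr 1
    ring
  rw [e3, ← mul_assoc, inv_mul_cancel₀ (by exact_mod_cast hZ.ne'), one_mul]
  congr 1
  rw [Complex.I_sq]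
  ring

/-- integrals against the standard Gaussian -/
theorem integral_stdGaussian {F : Type*} [NormedAddCommGroup F] [NormedSpace ℝ F] (f : E → F) :
    ∫ x, f x ∂(stdGaussian E) = (gZ E)⁻¹ • ∫ x, Real.exp (-(‖x‖ ^ 2 / 2)) • f x := by
  rw [stdGaussian_eq, integral_withDensity_eq_integral_toReal_smul (by fun_prop)
    (Filter.Eventually.of_forall fun x => ENNReal.ofReal_lt_top), ← integral_smul]
  refine integral_congr_ae (Filter.Eventually.of_forall fun x => ?_)
  have hZ : 0 < gZ E := gZ_pos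
  simp only
  rw [ENNReal.toReal_ofReal (by positivity), smul_smul]

theorem integrable_stdGaussian_iff {F : Type*} [NormedAddCommGroup F] [NormedSpace ℝ F] (f : E → F) :
    Integrable f (stdGaussian E) ↔ Integrable (fun x => Real.exp (-(‖x‖ ^ 2 / 2)) • f x) := by
  have hZ : 0 < gZ E := gZ_pos
  rw [stdGaussian_eq, integrable_withDensity_iff_integrable_smul' (by fun_prop)
    (Filter.Eventually.of_forall fun x => ENNReal.ofReal_lt_top)]
  have h1 : (fun x => (ENNReal.ofReal ((gZ E)⁻¹ * Real.exp (-(‖x‖ ^ 2 / 2)))).toReal • f x) =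
      (gZ E)⁻¹ • (fun x => Real.exp (-(‖x‖ ^ 2 / 2)) • f x) := by
    ext x
    rw [ENNReal.toReal_ofReal (by positivity)]
    simp [smul_smul]
  rw [h1]
  exact integrable_smul_iff (inv_ne_zero hZ.ne') _

/-! ### P2: bounded perturbation -/

/-- Poincare inequality for `exp (-W)`, `W = |x|²/2 +` bounded -/
theorem poi_W {W : E → ℝ} (hW : Continuous W) {B : ℝ}
    (hB : ∀ x, |W x - ‖x‖ ^ 2 / 2| ≤ B) (f : E → ℝ) (hf : ContDiff ℝ 1 f) (hg : PolyG f)
    (hg' : PolyG (fderiv ℝ f)) :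
    ∫ x, Real.exp (-(W x)) * (f x - (∫ y, Real.exp (-(W y)) * f y) / ∫ y, Real.exp (-(W y))) ^ 2 ≤
      (π ^ 2 / 8) * Real.exp (2 * B) * ∫ x, Real.exp (-(W x)) * ‖fderiv ℝ f x‖ ^ 2 := by
  have hlow : ∀ x, (1 / 2) * ‖x‖ ^ 2 - B ≤ W x := fun x => by
    have := (abs_le.1 (hB x)).1
    linarith
  have hcd : Continuous (fderiv ℝ f) := hf.continuous_fderiv (by norm_num)
  have hsq : PolyG (fun x => (f x) ^ 2) := by
    obtain ⟨C, k, h⟩ := hg
    refine ⟨C ^ 2, k * 2, fun x => ?_⟩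
    rw [norm_pow, pow_mul, ← mul_pow]
    exact pow_le_pow_left₀ (norm_nonneg _) (h x) 2
  have hsq' : PolyG (fun x => ‖fderiv ℝ f x‖ ^ 2) := by
    obtain ⟨C, k, h⟩ := hg'
    refine ⟨C ^ 2, k * 2, fun x => ?_⟩
    rw [norm_pow, norm_norm, pow_mul, ← mul_pow]
    exact pow_le_pow_left₀ (norm_nonneg _) (h x) 2
  have hone : PolyG (fun _ : E => (1 : ℝ)) := ⟨1, 0, fun x => by simp⟩
  have i0 : Integrable (fun x => Real.exp (-(W x))) := by
    simpa using integrable_polyG continuous_const hone hW (by norm_num : (0 : ℝ) < 1 / 2) hlow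
  have i1 : Integrable (fun x => Real.exp (-(W x)) * f x) := by
    simpa using integrable_polyG hf.continuous hg hW (by norm_num : (0 : ℝ) < 1 / 2) hlow
  have i2 : Integrable (fun x => Real.exp (-(W x)) * (f x) ^ 2) := by
    simpa using integrable_polyG (hf.continuous.pow 2) hsq hW (by norm_num : (0 : ℝ) < 1 / 2) hlow
  have i3 : Integrable (fun x => Real.exp (-(W x)) * ‖fderiv ℝ f x‖ ^ 2) := by
    simpa using integrable_polyG (hcd.norm.pow 2) hsq' hW (by norm_num : (0 : ℝ) < 1 / 2) hlow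
  have hlow0 : ∀ x : E, (1 / 2) * ‖x‖ ^ 2 - 0 ≤ ‖x‖ ^ 2 / 2 := fun x => by linarith
  have hW0 : Continuous fun x : E => ‖x‖ ^ 2 / 2 := by fun_prop
  have j2 : Integrable (fun x => (f x) ^ 2) (stdGaussian E) := by
    rw [integrable_stdGaussian_iff]
    exact integrable_polyG (hf.continuous.pow 2) hsq hW0 (by norm_num : (0 : ℝ) < 1 / 2) hlow0
  have j1 : Integrable f (stdGaussian E) := by
    rw [integrable_stdGaussian_iff]
    exact integrable_polyG hf.continuous hg hW0 (by norm_num : (0 : ℝ) < 1 / 2) hlow0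
  have j3 : Integrable (fun x => ‖fderiv ℝ f x‖ ^ 2) (stdGaussian E) := by
    rw [integrable_stdGaussian_iff]
    exact integrable_polyG (hcd.norm.pow 2) hsq' hW0 (by norm_num : (0 : ℝ) < 1 / 2) hlow0
  have hZ : 0 < gZ E := gZ_pos
  set Z := ∫ y, Real.exp (-(W y)) with hZW
  have hZWpos : 0 < Z := by
    rw [hZW]
    exact integral_exp_pos i0
  set m := (∫ y, Real.exp (-(W y)) * f y) / Z with hm
  set m0 := ∫ y, f y ∂(stdGaussian E) with hm0
  -- the mean minimises the quadratic deviation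
  have iA : ∀ a : ℝ, Integrable (fun x => Real.exp (-(W x)) * (f x - a) ^ 2) := by
    intro a
    have : (fun x => Real.exp (-(W x)) * (f x - a) ^ 2) = fun x =>
        (Real.exp (-(W x)) * (f x) ^ 2 - 2 * a * (Real.exp (-(W x)) * f x)) +
          a ^ 2 * Real.exp (-(W x)) := by
      ext x; ring
    rw [this]
    exact (i2.sub (i1.const_mul _)).add (i0.const_mul _)
  have eA : ∀ a : ℝ, ∫ x, Real.exp (-(W x)) * (f x - a) ^ 2 =
      (∫ x, Real.exp (-(W x)) * (f x) ^ 2) - 2 * a * (∫ x, Real.exp (-(W x)) * f x) + a ^ 2 * Z := by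
    intro a
    have : (fun x => Real.exp (-(W x)) * (f x - a) ^ 2) = fun x =>
        (Real.exp (-(W x)) * (f x) ^ 2 - 2 * a * (Real.exp (-(W x)) * f x)) +
          a ^ 2 * Real.exp (-(W x)) := by
      ext x; ring
    have hA : Integrable (fun x => Real.exp (-(W x)) * (f x) ^ 2 -
        2 * a * (Real.exp (-(W x)) * f x)) := i2.sub (i1.const_mul _)
    rw [this, integral_add hA (i0.const_mul _), integral_sub i2 (i1.const_mul _),
      integral_const_mul, integral_const_mul]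
  have hmin : ∫ x, Real.exp (-(W x)) * (f x - m) ^ 2 ≤ ∫ x, Real.exp (-(W x)) * (f x - m0) ^ 2 := by
    rw [eA m, eA m0]
    have : ∫ x, Real.exp (-(W x)) * f x = m * Z := by
      rw [hm]; field_simp
    rw [this]
    nlinarith [mul_nonneg hZWpos.le (sq_nonneg (m - m0))]
  have hup : ∀ x : E, Real.exp (-(W x)) ≤ Real.exp B * Real.exp (-(‖x‖ ^ 2 / 2)) := fun x => by
    rw [← Real.exp_add]
    have := (abs_le.1 (hB x)).1
    exact Real.exp_le_exp.2 (by linarith)
  have hdn : ∀ x : E, Real.exp (-(‖x‖ ^ 2 / 2)) ≤ Real.exp B * Real.exp (-(W x)) := fun x => by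
    rw [← Real.exp_add]
    have := (abs_le.1 (hB x)).2
    exact Real.exp_le_exp.2 (by linarith)
  have jA : Integrable (fun x => (f x - m0) ^ 2) (stdGaussian E) := by
    have : (fun x => (f x - m0) ^ 2) = fun x => ((f x) ^ 2 - 2 * m0 * f x) + m0 ^ 2 := by
      ext x; ring
    rw [this]
    exact (j2.sub (j1.const_mul _)).add (integrable_const _)
  have jA' := (integrable_stdGaussian_iff _).1 jA
  have j3' := (integrable_stdGaussian_iff _).1 j3
  simp only [smul_eq_mul] at jA' j3'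
  have hP := poi_gauss f hf j2 j3
  rw [integral_stdGaussian, integral_stdGaussian (fun x => ‖fderiv ℝ f x‖ ^ 2)] at hP
  simp only [smul_eq_mul] at hP
  have hP2 : ∫ x, Real.exp (-(‖x‖ ^ 2 / 2)) * (f x - m0) ^ 2 ≤
      (π ^ 2 / 8) * ∫ x, Real.exp (-(‖x‖ ^ 2 / 2)) * ‖fderiv ℝ f x‖ ^ 2 := by
    have hi : 0 < (gZ E)⁻¹ := inv_pos.2 hZ
    have h5 : (gZ E)⁻¹ * ∫ x, Real.exp (-(‖x‖ ^ 2 / 2)) * (f x - m0) ^ 2 ≤
      (gZ E)⁻¹ * ((π ^ 2 / 8) * ∫ x, Real.exp (-(‖x‖ ^ 2 / 2)) * ‖fderiv ℝ f x‖ ^ 2) := by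
      refine hP.trans (le_of_eq ?_)
      ring
    exact le_of_mul_le_mul_left h5 hi
  calc ∫ x, Real.exp (-(W x)) * (f x - m) ^ 2
      ≤ ∫ x, Real.exp (-(W x)) * (f x - m0) ^ 2 := hmin
    _ ≤ ∫ x, Real.exp B * (Real.exp (-(‖x‖ ^ 2 / 2)) * (f x - m0) ^ 2) := by
        refine integral_mono (iA m0) (jA'.const_mul _) fun x => ?_
        simp only
        rw [← mul_assoc]
        gcongr
        exact hup x
    _ = Real.exp B * ∫ x, Real.exp (-(‖x‖ ^ 2 / 2)) * (f x - m0) ^ 2 := integral_const_mul _ _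
    _ ≤ Real.exp B * ((π ^ 2 / 8) * ∫ x, Real.exp (-(‖x‖ ^ 2 / 2)) * ‖fderiv ℝ f x‖ ^ 2) := by
        gcongr
    _ ≤ Real.exp B * ((π ^ 2 / 8) * ∫ x, Real.exp B * (Real.exp (-(W x)) * ‖fderiv ℝ f x‖ ^ 2)) := by
        gcongr ?_ * (?_ * ?_)
        refine integral_mono j3' (i3.const_mul _) fun x => ?_
        simp only
        rw [← mul_assoc]
        gcongr
        exact hdn x
    _ = _ := by
        rw [integral_const_mul, two_mul, Real.exp_add]
        ring

/-! ### P4: integration by parts -/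

/-- `∫ (Df(x)[a] - f(x) DW(x)[a]) e^{-W} = 0`; only the derivatives in the direction `a` have to
be of polynomial growth -/
theorem ibp_dir {W : E → ℝ} (hW : ContDiff ℝ 1 W) {c b : ℝ} (hc : 0 < c)
    (hlow : ∀ x, c * ‖x‖ ^ 2 - b ≤ W x) (f : E → ℝ) (hf : ContDiff ℝ 1 f) (hg : PolyG f) (a : E)
    (hfa : PolyG (fun x => fderiv ℝ f x a)) (hWa : PolyG (fun x => fderiv ℝ W x a)) :
    ∫ x, Real.exp (-(W x)) * (fderiv ℝ f x a - f x * fderiv ℝ W x a) = 0 := by
  have hcd : Continuous (fderiv ℝ f) := hf.continuous_fderiv (by norm_num)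
  have hcW : Continuous (fderiv ℝ W) := hW.continuous_fderiv (by norm_num)
  have hWd : Differentiable ℝ W := hW.differentiable (by norm_num)
  have hfd : Differentiable ℝ f := hf.differentiable (by norm_num)
  have hfW : PolyG (fun x => f x * fderiv ℝ W x a) := by
    obtain ⟨C, k, h⟩ := hg
    obtain ⟨C', k', h'⟩ := hWa
    refine ⟨C * C', k + k', fun x => ?_⟩
    have hx : 0 ≤ C * (1 + ‖x‖) ^ k := (norm_nonneg _).trans (h x)
    calc ‖f x * fderiv ℝ W x a‖ = ‖f x‖ * ‖fderiv ℝ W x a‖ := norm_mul _ _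
      _ ≤ (C * (1 + ‖x‖) ^ k) * (C' * (1 + ‖x‖) ^ k') := by
          gcongr
          · exact h x
          · exact h' x
      _ = _ := by rw [pow_add]; ring
  have i1 : Integrable (fun x => Real.exp (-(W x)) * f x) := by
    simpa using integrable_polyG hf.continuous hg hW.continuous hc hlow
  have i2 : Integrable (fun x => Real.exp (-(W x)) * fderiv ℝ f x a) := by
    simpa using integrable_polyG (hcd.clm_apply continuous_const) hfa hW.continuous hc hlow
  have i3 : Integrable (fun x => Real.exp (-(W x)) * (f x * fderiv ℝ W x a)) := by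
    simpa using integrable_polyG (hf.continuous.mul (hcW.clm_apply continuous_const)) hfW
      hW.continuous hc hlow
  have hexp : ∀ x, HasFDerivAt (fun x => Real.exp (-(W x)))
      (Real.exp (-(W x)) • (-(fderiv ℝ W x))) x := fun x => by
    have := ((hWd x).hasFDerivAt.neg).exp
    simpa using this
  have hexpd : ∀ x, fderiv ℝ (fun x => Real.exp (-(W x))) x a =
      -(Real.exp (-(W x)) * fderiv ℝ W x a) := fun x => by
    rw [(hexp x).fderiv]
    simp
  have key := integral_mul_fderiv_eq_neg_fderiv_mul_of_integrable (μ := (volume : Measure E))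
    (f := fun x => Real.exp (-(W x))) (g := f) (v := a) ?_ i2 i1
    (fun x _ => (hexp x).differentiableAt) (fun x _ => hfd x)
  · have : (fun x => Real.exp (-(W x)) * (fderiv ℝ f x a - f x * fderiv ℝ W x a)) =
        fun x => Real.exp (-(W x)) * fderiv ℝ f x a - Real.exp (-(W x)) * (f x * fderiv ℝ W x a) := by
      ext x; ring
    rw [this, integral_sub i2 i3, key]
    simp only [hexpd]
    rw [← integral_neg, ← integral_sub]
    · refine integral_eq_zero_of_ae (Filter.Eventually.of_forall fun x => ?_)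
      simp only [Pi.zero_apply]
      ring
    · refine i3.congr (Filter.Eventually.of_forall fun x => ?_)
      simp only
      ring
    · exact i3
  · refine i3.neg.congr (Filter.Eventually.of_forall fun x => ?_)
    simp only [hexpd, Pi.neg_apply]
    ring

/-- `∫ (Df(x)[a] - f(x) DW(x)[a]) e^{-W} = 0` -/
theorem ibp_W {W : E → ℝ} (hW : ContDiff ℝ 1 W) {c b : ℝ} (hc : 0 < c)
    (hlow : ∀ x, c * ‖x‖ ^ 2 - b ≤ W x) (hgW : PolyG (fderiv ℝ W)) (f : E → ℝ)
    (hf : ContDiff ℝ 1 f) (hg : PolyG f) (hg' : PolyG (fderiv ℝ f)) (a : E) :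
    ∫ x, Real.exp (-(W x)) * (fderiv ℝ f x a - f x * fderiv ℝ W x a) = 0 := by
  refine ibp_dir hW hc hlow f hf hg a ?_ ?_
  · obtain ⟨C, k, h⟩ := hg'
    refine ⟨C * ‖a‖, k, fun x => ?_⟩
    calc ‖fderiv ℝ f x a‖ ≤ ‖fderiv ℝ f x‖ * ‖a‖ := ContinuousLinearMap.le_opNorm _ _
      _ ≤ (C * (1 + ‖x‖) ^ k) * ‖a‖ := by gcongr; exact h x
      _ = _ := by ring
  · obtain ⟨C, k, h⟩ := hgW
    refine ⟨C * ‖a‖, k, fun x => ?_⟩
    calc ‖fderiv ℝ W x a‖ ≤ ‖fderiv ℝ W x‖ * ‖a‖ := ContinuousLinearMap.le_opNorm _ _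
      _ ≤ (C * (1 + ‖x‖) ^ k) * ‖a‖ := by gcongr; exact h x
      _ = _ := by ring

end Pool.Agent.Helper74.MM
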