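import Pool.Agent.Helper63.MM.Defs4
import Pool.Agent.Helper74.MM.Poi

/-! Project MM, row B4.IBP -/

set_option autoImplicit false

open MeasureTheory

namespace Pool.Agent.Helper74.MM

open CM

variable {n : ℕ}

/-- row B4.IBP -/
theorem ibp {K : ℝ} {W f : E n → ℝ} (hW : GW K W) (hWd : PGC 1 W) (hf : PGC 1 f) (i : Fin n) :
    wint W (fun x => pd i f x - f x * pd i W x) = 0 := by
  have hlow : ∀ x, (1 / 2) * ‖x‖ ^ 2 - K ≤ W x := fun x => by
    have h := (abs_le.1 (hW x)).1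
    unfold qn at h
    linarith
  have h := ibp_dir (c := 1 / 2) (b := K) hWd.1 (by norm_num) hlow f hf.1
    (by obtain ⟨C, k, h⟩ := hf.2 [] (by simp); exact ⟨C, k, h⟩)
    (EuclideanSpace.single i (1 : ℝ))
    (by obtain ⟨C, k, h⟩ := hf.2 [i] (by simp); exact ⟨C, k, h⟩)
    (by obtain ⟨C, k, h⟩ := hWd.2 [i] (by simp); exact ⟨C, k, h⟩)
  unfold wint
  rw [← h]
  refine integral_congr_ae (Filter.Eventually.of_forall fun x => ?_)
  simp only [pd]
  ring

end Pool.Agent.Helper74.MM
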