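import Pool.Agent.Helper74.MM.IBP
import Pool.Agent.Helper12.MM.Defs

/-! Project MM: `ST_IBP` of helper12, from `pgc_WW` of helper63 (passed as a hypothesis). -/

set_option autoImplicit false

open MeasureTheory

namespace Pool.Agent.Helper74.MM

open CM

/-- the class `VOK` is contained in `VG` -/
theorem vg_of_vok {n : ℕ} {c K : ℝ} {V : E n → ℝ} (h : VOK c K V) : VG V := by
  obtain ⟨M, hM⟩ := h.h2
  refine ⟨h.reg.of_le (by norm_num), ⟨c, h.c_pos, h.lo⟩, ⟨K, h.bd⟩, fun i j k => ?_, ⟨K, h.gau⟩⟩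
  exact ⟨M, 0, fun x => by simpa [pdl] using ((hM.2 j k).2 [i] (by simp)).1 x⟩

theorem pgc_of_pc {n k : ℕ} {C : ℝ} {m : ℕ} {f : E n → ℝ} (h : PC k C m f) : PGC k f :=
  ⟨h.1, fun l hl => ⟨C, m, h.2 l hl⟩⟩

/-- row ST_IBP (helper12) -/
theorem st_IBP (h : ∀ (n : ℕ) (V : E n → ℝ), VG V → PGC 1 (WW V)) : ST_IBP := by
  intro n c K V f C m i hV hf
  exact ibp (K := K) hV.gau (h n V (vg_of_vok hV)) (pgc_of_pc hf) i

end Pool.Agent.Helper74.MM
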